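import Pool.Agent.MP_ca0a54_nt.H24.Spec

/-!
Row ODE, part B: the differential equation and the mean squares of the coefficients.
-/

open Complex MeasureTheory Filter Topology

namespace Pool.Agent.MP_ca0a54_nt.H45

open Pool.Agent.MP_ca0a54_nt.H24

/-- `Λ(d) (1 - d^{-y})`. -/
noncomputable def gc (y : ℝ) (d : ℕ) : ℂ :=
  ((ArithmeticFunction.vonMangoldt d * (1 - Real.exp (-y * Real.log d)) : ℝ) : ℂ)

/-- The coefficients of the product of the two truncations. -/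
noncomputable def ec (y : ℝ) (X : ℕ) : ℕ → ℂ := cv (cut (gc y) X) (cut (rc y 0) X)

theorem conv_sum {R : Type*} [CommSemiring R] (u v : ℕ → R) (X : ℕ) :
    ∑ n ∈ Finset.Icc 1 (X ^ 2), ∑ p ∈ n.divisorsAntidiagonal,
      (if p.1 ≤ X then u p.1 else 0) * (if p.2 ≤ X then v p.2 else 0) =
      (∑ d ∈ Finset.Icc 1 X, u d) * ∑ m ∈ Finset.Icc 1 X, v m := by
  rw [Finset.sum_mul_sum, ← Finset.sum_product',
    ← Finset.sum_fiberwise_of_maps_to (s := Finset.Icc 1 X ×ˢ Finset.Icc 1 X)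
      (t := Finset.Icc 1 (X ^ 2)) (g := fun p : ℕ × ℕ => p.1 * p.2)]
  · refine Finset.sum_congr rfl fun n hn => ?_
    have hn1 : n ≠ 0 := by have := (Finset.mem_Icc.1 hn).1; omega
    have h1 : ∀ p ∈ n.divisorsAntidiagonal,
        (if p.1 ≤ X then u p.1 else 0) * (if p.2 ≤ X then v p.2 else 0) =
        if p.1 ≤ X ∧ p.2 ≤ X then u p.1 * v p.2 else 0 := by
      intro p _
      by_cases h : p.1 ≤ X <;> by_cases h' : p.2 ≤ X <;> simp [h, h']
    rw [Finset.sum_congr rfl h1, ← Finset.sum_filter]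
    refine Finset.sum_congr ?_ fun _ _ => rfl
    ext p
    simp only [Finset.mem_filter, Nat.mem_divisorsAntidiagonal, Finset.mem_product,
      Finset.mem_Icc]
    constructor
    · rintro ⟨⟨h, -⟩, h2, h3⟩
      have h4 : p.1 ≠ 0 := fun h0 => hn1 (by rw [← h, h0, zero_mul])
      have h5 : p.2 ≠ 0 := fun h0 => hn1 (by rw [← h, h0, mul_zero])
      exact ⟨⟨⟨by omega, h2⟩, by omega, h3⟩, h⟩
    · rintro ⟨⟨⟨-, h2⟩, -, h3⟩, h⟩
      exact ⟨⟨h, hn1⟩, h2, h3⟩
  · intro p hp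
    simp only [Finset.mem_product, Finset.mem_Icc] at hp ⊢
    refine ⟨Nat.mul_pos hp.1.1 hp.2.1, ?_⟩
    rw [pow_two]
    exact Nat.mul_le_mul hp.1.2 hp.2.2

theorem log_mul_nat {d m : ℕ} (hd : d ≠ 0) (hm : m ≠ 0) :
    Real.log ((d * m : ℕ) : ℝ) = Real.log d + Real.log m := by
  rw [Nat.cast_mul, Real.log_mul (Nat.cast_ne_zero.2 hd) (Nat.cast_ne_zero.2 hm)]

theorem np_mul (z : ℂ) {d m : ℕ} (hd : d ≠ 0) (hm : m ≠ 0) : np z (d * m) = np z d * np z m := by
  unfold np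
  rw [log_mul_nat hd hm, ← Complex.exp_add]
  congr 1
  push_cast
  ring

theorem norm_np (z : ℂ) (n : ℕ) : ‖np z n‖ = Real.exp (-z.re * Real.log n) := by
  unfold np
  rw [Complex.norm_exp, Complex.re_mul_ofReal, Complex.neg_re]

theorem dp_mul (u v : ℕ → ℂ) (X : ℕ) (w : ℂ) :
    dp u X w * dp v X w = dp (cv (cut u X) (cut v X)) (X ^ 2) w := by
  unfold dp ds
  rw [← conv_sum]
  refine Finset.sum_congr rfl fun n _ => ?_
  rw [cv, LSeries.convolution_def, Finset.sum_mul]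
  refine Finset.sum_congr rfl fun p hp => ?_
  obtain ⟨h, hn⟩ := Nat.mem_divisorsAntidiagonal.1 hp
  have h4 : p.1 ≠ 0 := fun h0 => hn (by rw [← h, h0, zero_mul])
  have h5 : p.2 ≠ 0 := fun h0 => hn (by rw [← h, h0, mul_zero])
  rw [← h, np_mul _ h4 h5]
  unfold cut
  split_ifs <;> ring

theorem dp_split (c : ℕ → ℂ) {X N : ℕ} (h : X ≤ N) (w : ℂ) :
    dp c N w = dp c X w + ds c (Finset.Ioc X N) w := by
  unfold dp ds
  have h1 : ∀ M : ℕ, Finset.Icc 1 M = Finset.Ioc 0 M := fun M => by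
    ext n; simp only [Finset.mem_Icc, Finset.mem_Ioc]; omega
  rw [h1, h1, Finset.sum_Ioc_consecutive _ (Nat.zero_le X) h]

theorem hasDerivAt_ds (c : ℕ → ℂ) (S : Finset ℕ) (w : ℂ) :
    HasDerivAt (ds c S) (ds (fun n => -I * (c n * (Real.log n : ℂ))) S w) w := by
  unfold ds
  refine HasDerivAt.fun_sum fun n _ => ?_
  have h1 : HasDerivAt (fun w : ℂ => -(1 / 2 + I * w) * (Real.log n : ℂ))
      (-I * (Real.log n : ℂ)) w := by
    refine (((((hasDerivAt_id w).const_mul I).const_add (1 / 2)).fun_neg).mul_const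
      (Real.log n : ℂ)).congr_deriv ?_
    ring
  refine (h1.cexp.const_mul (c n)).congr_deriv ?_
  unfold np
  ring

theorem cont_ds (c : ℕ → ℂ) (S : Finset ℕ) : Continuous (ds c S) :=
  continuous_iff_continuousAt.2 fun w => (hasDerivAt_ds c S w).continuousAt

theorem pc_log (y : ℝ) (d : ℕ) : pc y 0 d * (Real.log d : ℂ) = gc y d := by
  unfold pc gc
  rw [← Complex.ofReal_mul]
  congr 1
  by_cases h : Real.log d = 0
  · have h1 : ArithmeticFunction.vonMangoldt d = 0 :=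
      le_antisymm (h ▸ ArithmeticFunction.vonMangoldt_le_log) ArithmeticFunction.vonMangoldt_nonneg
    simp [h1]
  · simp only [neg_zero, zero_mul, Real.exp_zero, mul_one]
    field_simp

theorem hasDerivAt_P (y : ℝ) (X : ℕ) (w : ℂ) :
    HasDerivAt (dp (pc y 0) X) (-I * dp (gc y) X w) w := by
  refine (hasDerivAt_ds (pc y 0) (Finset.Icc 1 X) w).congr_deriv ?_
  unfold dp ds
  rw [Finset.mul_sum]
  refine Finset.sum_congr rfl fun n _ => ?_
  beta_reduce
  rw [pc_log]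
  ring

theorem ec_low (y : ℝ) {X n : ℕ} (hn : n ≤ X) : ec y X n = cv (gc y) (rc y 0) n := by
  unfold ec
  simp only [cv, LSeries.convolution_def]
  refine Finset.sum_congr rfl fun p hp => ?_
  obtain ⟨h, hn0⟩ := Nat.mem_divisorsAntidiagonal.1 hp
  have h4 : p.1 ≤ X := (Nat.le_of_dvd (Nat.pos_of_ne_zero hn0) ⟨p.2, h.symm⟩).trans hn
  have h5 : p.2 ≤ X :=
    (Nat.le_of_dvd (Nat.pos_of_ne_zero hn0) ⟨p.1, by rw [← h, mul_comm]⟩).trans hn
  simp [cut, h4, h5]

theorem hasDerivAt_R (h1 : Ar1Stmt) (y : ℝ) (X : ℕ) (w : ℂ) :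
    HasDerivAt (dp (rc y 0) X) (I * (dp (gc y) X w * dp (rc y 0) X w -
      ds (ec y X) (Finset.Ioc X (X ^ 2)) w)) w := by
  refine (hasDerivAt_ds (rc y 0) (Finset.Icc 1 X) w).congr_deriv ?_
  have h2 : dp (gc y) X w * dp (rc y 0) X w = dp (ec y X) X w +
      ds (ec y X) (Finset.Ioc X (X ^ 2)) w := by
    rw [dp_mul, dp_split _ (Nat.le_self_pow two_ne_zero X)]
    rfl
  rw [h2, add_sub_cancel_right]
  unfold dp ds
  rw [Finset.mul_sum]
  refine Finset.sum_congr rfl fun n hn => ?_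
  beta_reduce
  rw [ec_low y (Finset.mem_Icc.1 hn).2, h1.2.2.2.2.2.2.1 y n]
  have : (fun d : ℕ => ((ArithmeticFunction.vonMangoldt d *
    (1 - Real.exp (-y * Real.log d)) : ℝ) : ℂ)) = gc y := rfl
  rw [this]
  ring

theorem dp_pc (y α t : ℝ) (X : ℕ) : dp (pc y α) X t = dp (pc y 0) X (t + -(α * I)) := by
  unfold dp ds
  refine Finset.sum_congr rfl fun n _ => ?_
  unfold pc np
  have h : -(1 / 2 + I * ((t : ℂ) + -(α * I))) * (Real.log n : ℂ) =
      ((-α * Real.log n : ℝ) : ℂ) + -(1 / 2 + I * (t : ℂ)) * (Real.log n : ℂ) := by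
    rw [Complex.ofReal_mul, Complex.ofReal_neg]
    linear_combination (α * (Real.log n : ℂ)) * I_mul_I
  rw [h, Complex.exp_add, ← Complex.ofReal_exp]
  simp only [neg_zero, zero_mul, Real.exp_zero, mul_one]
  rw [Complex.ofReal_mul]
  ring

theorem one_sub_exp {y : ℝ} (hy : 0 ≤ y) (d : ℕ) : 0 ≤ 1 - Real.exp (-y * Real.log d) ∧
    1 - Real.exp (-y * Real.log d) ≤ 1 ∧ 1 - Real.exp (-y * Real.log d) ≤ y * Real.log d := by
  have h0 : 0 ≤ y * Real.log d := mul_nonneg hy (Real.log_natCast_nonneg d)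
  have h1 := Real.add_one_le_exp (-y * Real.log d)
  have h2 := Real.exp_pos (-y * Real.log d)
  have h3 : Real.exp (-y * Real.log d) ≤ 1 := Real.exp_le_one_iff.2 (by linarith)
  exact ⟨by linarith, by linarith, by linarith⟩

theorem norm_gc {y : ℝ} (hy : 0 ≤ y) (d : ℕ) : ‖gc y d‖ ≤ ArithmeticFunction.vonMangoldt d ∧
    ‖gc y d‖ ≤ ArithmeticFunction.vonMangoldt d * (y * Real.log d) := by
  obtain ⟨h1, h2, h3⟩ := one_sub_exp hy d
  have h0 : 0 ≤ ArithmeticFunction.vonMangoldt d := ArithmeticFunction.vonMangoldt_nonneg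
  unfold gc
  rw [Complex.norm_real, Real.norm_of_nonneg (mul_nonneg h0 h1)]
  exact ⟨mul_le_of_le_one_right h0 h2, mul_le_mul_of_nonneg_left h3 h0⟩

theorem norm_pc {y : ℝ} (hy : 0 ≤ y) (d : ℕ) : ‖pc y 0 d‖ ≤ y * Real.log d := by
  obtain ⟨h1, h2, h3⟩ := one_sub_exp hy d
  have h0 : 0 ≤ ArithmeticFunction.vonMangoldt d := ArithmeticFunction.vonMangoldt_nonneg
  have hl : 0 ≤ Real.log d := Real.log_natCast_nonneg d
  unfold pc
  simp only [neg_zero, zero_mul, Real.exp_zero, mul_one]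
  rw [Complex.norm_real, Real.norm_of_nonneg (div_nonneg (mul_nonneg h0 h1) hl)]
  refine div_le_of_le_mul₀ hl (mul_nonneg hy hl) ?_
  rw [mul_comm (y * Real.log d)]
  exact mul_le_mul ArithmeticFunction.vonMangoldt_le_log h3 h1 hl

theorem ms_gc (h1 : Ar1Stmt) {y s : ℝ} (hy : 0 < y) (hs : 0 < s) (hs1 : s ≤ 1) (X : ℕ) :
    ms (gc y) (Finset.Icc 1 X) (-s) ≤ (4 / s) ^ 2 ∧
    ms (gc y) (Finset.Icc 1 X) (-s) ≤ (18 * y / (s * (s + y))) ^ 2 := by
  have hL := h1.2.2.2.2.2.2.2 s X hs hs1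
  have key : ∀ B : ℝ, 0 ≤ B → (∀ d : ℕ, ‖gc y d‖ ^ 2 * Real.exp (-s * Real.log d) ≤
      ArithmeticFunction.vonMangoldt d * B) → ms (gc y) (Finset.Icc 1 X) (-s) ≤ 12 / s * B := by
    intro B hB h
    refine le_trans ?_ (mul_le_mul_of_nonneg_right hL hB)
    unfold ms
    rw [Finset.sum_mul]
    refine Finset.sum_le_sum fun d _ => ?_
    have h2 : Real.exp ((2 * -s - 1) * Real.log d) =
        Real.exp (-s * Real.log d) * Real.exp (-(1 + s) * Real.log d) := by
      rw [← Real.exp_add]; congr 1; ring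
    rw [h2, ← mul_assoc]
    have := mul_le_mul_of_nonneg_right (h d) (Real.exp_pos (-(1 + s) * Real.log d)).le
    linarith
  have k1 : ms (gc y) (Finset.Icc 1 X) (-s) ≤ 12 / s * (1 / s) := by
    refine key _ (by positivity) fun d => ?_
    have hl : 0 ≤ Real.log d := Real.log_natCast_nonneg d
    have h0 : 0 ≤ ArithmeticFunction.vonMangoldt d := ArithmeticFunction.vonMangoldt_nonneg
    have h2 : ‖gc y d‖ ^ 2 ≤ ArithmeticFunction.vonMangoldt d * Real.log d := by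
      rw [pow_two]
      exact mul_le_mul (norm_gc hy.le d).1
        ((norm_gc hy.le d).1.trans ArithmeticFunction.vonMangoldt_le_log) (norm_nonneg _) h0
    have h3 : Real.log d * Real.exp (-s * Real.log d) ≤ 1 / s := by
      rw [le_div_iff₀ hs, neg_mul, Real.exp_neg]
      have h4 := Real.add_one_le_exp (s * Real.log d)
      have h5 := Real.exp_pos (s * Real.log d)
      rw [mul_right_comm, ← div_eq_mul_inv, div_le_one h5]
      linarith
    calc _ ≤ ArithmeticFunction.vonMangoldt d * Real.log d * Real.exp (-s * Real.log d) := by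
          gcongr
      _ ≤ _ := by rw [mul_assoc]; gcongr
  have k2 : ms (gc y) (Finset.Icc 1 X) (-s) ≤ 12 / s * (y ^ 2 * (6 / s ^ 3)) := by
    refine key _ (by positivity) fun d => ?_
    have hl : 0 ≤ Real.log d := Real.log_natCast_nonneg d
    have h0 : 0 ≤ ArithmeticFunction.vonMangoldt d := ArithmeticFunction.vonMangoldt_nonneg
    have h2 : ‖gc y d‖ ^ 2 ≤ ArithmeticFunction.vonMangoldt d * (y ^ 2 * Real.log d ^ 3) := by
      have h3 := (norm_gc hy.le d).2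
      have h4 : ‖gc y d‖ ≤ Real.log d * (y * Real.log d) :=
        h3.trans (mul_le_mul_of_nonneg_right ArithmeticFunction.vonMangoldt_le_log (by positivity))
      have h5 := mul_le_mul h3 h4 (norm_nonneg _) (by positivity)
      calc _ = ‖gc y d‖ * ‖gc y d‖ := pow_two _
        _ ≤ _ := h5
        _ = _ := by ring
    have h3 : Real.log d ^ 3 * Real.exp (-s * Real.log d) ≤ 6 / s ^ 3 := by
      rw [le_div_iff₀ (by positivity), neg_mul, Real.exp_neg]
      have h4 := Real.pow_div_factorial_le_exp (s * Real.log d) (by positivity) 3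
      have h5 := Real.exp_pos (s * Real.log d)
      rw [mul_right_comm, ← div_eq_mul_inv, div_le_iff₀ h5]
      norm_num [Nat.factorial] at h4
      rw [mul_pow] at h4
      linarith
    calc _ ≤ ArithmeticFunction.vonMangoldt d * (y ^ 2 * Real.log d ^ 3) *
          Real.exp (-s * Real.log d) := by gcongr
      _ = ArithmeticFunction.vonMangoldt d * (y ^ 2 * (Real.log d ^ 3 *
          Real.exp (-s * Real.log d))) := by ring
      _ ≤ _ := by gcongr
  have k3 : ms (gc y) (Finset.Icc 1 X) (-s) ≤ (4 / s) ^ 2 := by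
    refine k1.trans ?_
    have : (4 / s) ^ 2 = 16 / s * (1 / s) := by ring
    rw [this]
    gcongr
    norm_num
  refine ⟨k3, ?_⟩
  rcases le_total s y with h | h
  · refine k3.trans (pow_le_pow_left₀ (by positivity) ?_ 2)
    rw [div_le_div_iff₀ hs (by positivity)]
    nlinarith [mul_pos hs hy, mul_le_mul_of_nonneg_left h hs.le]
  · have h2 : 9 * y / s ^ 2 ≤ 18 * y / (s * (s + y)) := by
      rw [div_le_div_iff₀ (by positivity) (by positivity)]
      nlinarith [mul_le_mul_of_nonneg_left h (mul_pos hs hy).le]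
    refine k2.trans (le_trans ?_ (pow_le_pow_left₀ (by positivity) h2 2))
    have h3 : 12 / s * (y ^ 2 * (6 / s ^ 3)) = 72 * (y / s ^ 2) ^ 2 := by field_simp; norm_num
    have h4 : (9 * y / s ^ 2) ^ 2 = 81 * (y / s ^ 2) ^ 2 := by ring
    rw [h3, h4]
    gcongr
    norm_num

theorem norm_ec (h1 : Ar1Stmt) {y : ℝ} (hy : 0 ≤ y) (X n : ℕ) :
    ‖ec y X n‖ ≤ Real.log n ∧ ‖ec y X n‖ ≤ ∑ p ∈ n.divisorsAntidiagonal,
      (if p.1 ≤ X then ArithmeticFunction.vonMangoldt p.1 else 0) *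
        (if p.2 ≤ X then (rc 0 y p.2).re else 0) := by
  have k : ‖ec y X n‖ ≤ ∑ p ∈ n.divisorsAntidiagonal,
      (if p.1 ≤ X then ArithmeticFunction.vonMangoldt p.1 else 0) *
        (if p.2 ≤ X then (rc 0 y p.2).re else 0) := by
    unfold ec
    simp only [cv, LSeries.convolution_def]
    refine (norm_sum_le _ _).trans (Finset.sum_le_sum fun p _ => ?_)
    unfold cut
    split_ifs
    · rw [norm_mul]
      exact mul_le_mul (norm_gc hy _).1 (h1.2.2.2.2.1 y p.2 hy).1 (norm_nonneg _)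
        ArithmeticFunction.vonMangoldt_nonneg
    all_goals simp
  refine ⟨k.trans ?_, k⟩
  rw [← ArithmeticFunction.vonMangoldt_sum,
    ← Nat.sum_divisorsAntidiagonal (fun d _ => ArithmeticFunction.vonMangoldt d)]
  refine Finset.sum_le_sum fun p _ => ?_
  have h0 : 0 ≤ ArithmeticFunction.vonMangoldt p.1 := ArithmeticFunction.vonMangoldt_nonneg
  split_ifs
  · exact mul_le_of_le_one_right h0 (h1.2.2.2.2.1 y p.2 hy).2.1
  all_goals simp

theorem ms_ec (h1 : Ar1Stmt) {y s L W : ℝ} (hy : 0 ≤ y) (hs : 0 < s) (hs1 : s ≤ 1) (hL : 0 ≤ L)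
    (X : ℕ) (hlo : ∀ n : ℕ, X < n → L / 3 ≤ Real.log n)
    (hhi : ∀ n : ℕ, n ≤ X ^ 2 → Real.log n ≤ L)
    (hW : ∑ n ∈ Finset.Icc 1 X, (rc 0 y n).re / n ≤ W) :
    ms (ec y X) (Finset.Ioc X (X ^ 2)) (-s) ≤ L * Real.exp (-s * (L / 3)) * (12 / s * W) := by
  have hφ : ∀ m, 0 ≤ (rc 0 y m).re := fun m => (norm_nonneg _).trans (h1.2.2.2.2.1 y m hy).1
  have hΛ : ∀ d, 0 ≤ ArithmeticFunction.vonMangoldt d :=
    fun d => ArithmeticFunction.vonMangoldt_nonneg
  set u : ℕ → ℝ := fun d => ArithmeticFunction.vonMangoldt d * Real.exp (-(1 + s) * Real.log d)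
    with hu
  set v : ℕ → ℝ := fun m => (rc 0 y m).re / m with hv
  have hu0 : ∀ d, 0 ≤ u d := fun d => mul_nonneg (hΛ d) (Real.exp_pos _).le
  have hv0 : ∀ m, 0 ≤ v m := fun m => div_nonneg (hφ m) (Nat.cast_nonneg m)
  have hn0 : ∀ n : ℕ, 0 ≤ ∑ p ∈ n.divisorsAntidiagonal,
      (if p.1 ≤ X then u p.1 else 0) * (if p.2 ≤ X then v p.2 else 0) := by
    intro n
    refine Finset.sum_nonneg fun p _ => mul_nonneg ?_ ?_ <;> split_ifs
    exacts [hu0 _, le_rfl, hv0 _, le_rfl]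
  have k : ∀ n ∈ Finset.Ioc X (X ^ 2), ‖ec y X n‖ ^ 2 * Real.exp ((2 * -s - 1) * Real.log n) ≤
      L * Real.exp (-s * (L / 3)) * ∑ p ∈ n.divisorsAntidiagonal,
      (if p.1 ≤ X then u p.1 else 0) * (if p.2 ≤ X then v p.2 else 0) := by
    intro n hn
    obtain ⟨hn1, hn2⟩ := Finset.mem_Ioc.1 hn
    obtain ⟨e1, e2⟩ := norm_ec h1 hy X n
    have h2 : Real.exp ((2 * -s - 1) * Real.log n) =
        Real.exp (-s * Real.log n) * Real.exp (-(1 + s) * Real.log n) := by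
      rw [← Real.exp_add]; congr 1; ring
    have h3 : Real.exp (-s * Real.log n) ≤ Real.exp (-s * (L / 3)) :=
      Real.exp_le_exp.2 (by nlinarith [hlo n hn1])
    have h4 : ‖ec y X n‖ * Real.exp (-(1 + s) * Real.log n) ≤ ∑ p ∈ n.divisorsAntidiagonal,
        (if p.1 ≤ X then u p.1 else 0) * (if p.2 ≤ X then v p.2 else 0) := by
      refine (mul_le_mul_of_nonneg_right e2 (Real.exp_pos _).le).trans ?_
      rw [Finset.sum_mul]
      refine Finset.sum_le_sum fun p hp => ?_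
      obtain ⟨h, hn⟩ := Nat.mem_divisorsAntidiagonal.1 hp
      have h4 : p.1 ≠ 0 := fun h0 => hn (by rw [← h, h0, zero_mul])
      have h5 : p.2 ≠ 0 := fun h0 => hn (by rw [← h, h0, mul_zero])
      have h6 : Real.exp (-(1 + s) * Real.log n) =
          Real.exp (-(1 + s) * Real.log p.1) * Real.exp (-(1 + s) * Real.log p.2) := by
        rw [← h, log_mul_nat h4 h5, ← Real.exp_add]; congr 1; ring
      have h7 : Real.exp (-(1 + s) * Real.log p.2) ≤ 1 / p.2 := by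
        have h8 : (0 : ℝ) < p.2 := Nat.cast_pos.2 (Nat.pos_of_ne_zero h5)
        rw [one_div, ← Real.exp_log h8, ← Real.exp_neg, Real.log_exp]
        exact Real.exp_le_exp.2 (by nlinarith [Real.log_natCast_nonneg p.2])
      split_ifs
      · rw [h6, hu, hv]
        have h9 := mul_le_mul_of_nonneg_left h7
          (mul_nonneg (mul_nonneg (hΛ p.1) (Real.exp_pos (-(1 + s) * Real.log p.1)).le) (hφ p.2))
        calc _ = ArithmeticFunction.vonMangoldt p.1 * Real.exp (-(1 + s) * Real.log p.1) *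
              (rc 0 y p.2).re * Real.exp (-(1 + s) * Real.log p.2) := by ring
          _ ≤ _ := h9
          _ = _ := by ring
      all_goals simp
    calc _ = ‖ec y X n‖ * Real.exp (-s * Real.log n) *
          (‖ec y X n‖ * Real.exp (-(1 + s) * Real.log n)) := by rw [h2]; ring
      _ ≤ _ := by
        refine mul_le_mul ?_ h4 (by positivity) (by positivity)
        exact mul_le_mul (e1.trans (hhi n hn2)) h3 (Real.exp_pos _).le hL
  unfold ms
  refine (Finset.sum_le_sum k).trans ?_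
  rw [← Finset.mul_sum]
  refine mul_le_mul_of_nonneg_left ?_ (by positivity)
  refine (Finset.sum_le_sum_of_subset_of_nonneg (t := Finset.Icc 1 (X ^ 2)) ?_
    fun n _ _ => hn0 n).trans ?_
  · intro n hn
    simp only [Finset.mem_Ioc, Finset.mem_Icc] at hn ⊢
    omega
  · rw [conv_sum]
    exact mul_le_mul (h1.2.2.2.2.2.2.2 s X hs hs1) hW (Finset.sum_nonneg fun m _ => hv0 m)
      (by positivity)

theorem ms_tail (h1 : Ar1Stmt) {y s L W : ℝ} (hy : 0 ≤ y) (hs : 0 ≤ s) (hL : 0 ≤ L)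
    (X N : ℕ) (hlo : ∀ n : ℕ, X < n → L / 3 ≤ Real.log n)
    (hW : ∑ n ∈ Finset.Icc 1 N, (rc 0 y n).re / n ≤ W) :
    ms (rc y 0) (Finset.Ioc X N) (-s) ≤ Real.exp (-s * (L / 3)) * W := by
  have hφ : ∀ m, 0 ≤ (rc 0 y m).re := fun m => (norm_nonneg _).trans (h1.2.2.2.2.1 y m hy).1
  refine le_trans ?_ (mul_le_mul_of_nonneg_left hW (Real.exp_pos _).le)
  unfold ms
  rw [Finset.mul_sum]
  refine le_trans (Finset.sum_le_sum fun n hn => ?_)
    (Finset.sum_le_sum_of_subset_of_nonneg (s := Finset.Ioc X N) ?_ fun n _ _ =>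
      mul_nonneg (Real.exp_pos _).le (div_nonneg (hφ n) (Nat.cast_nonneg n)))
  · obtain ⟨hn1, -⟩ := Finset.mem_Ioc.1 hn
    obtain ⟨b1, b2, -⟩ := h1.2.2.2.2.1 y n hy
    have h8 : (0 : ℝ) < n := Nat.cast_pos.2 (by omega)
    have h2 : ‖rc y 0 n‖ ^ 2 ≤ (rc 0 y n).re := by
      rw [pow_two]
      exact (mul_le_of_le_one_right (norm_nonneg _) (b1.trans b2)).trans b1
    have h3 : Real.exp ((2 * -s - 1) * Real.log n) ≤ Real.exp (-s * (L / 3)) / n := by
      rw [le_div_iff₀ h8]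
      nth_rewrite 2 [← Real.exp_log h8]
      rw [← Real.exp_add]
      exact Real.exp_le_exp.2 (by nlinarith [hlo n hn1, mul_nonneg hs hL])
    calc _ ≤ (rc 0 y n).re * (Real.exp (-s * (L / 3)) / n) :=
          mul_le_mul h2 h3 (Real.exp_pos _).le (hφ n)
      _ = _ := by ring
  · intro n hn
    simp only [Finset.mem_Ioc, Finset.mem_Icc] at hn ⊢
    omega

theorem exists_K : ∃ K : ℝ, 1 ≤ K ∧ ∀ S : Finset ℕ,
    ∑ n ∈ S, Real.log n * Real.exp (-(3 / 2) * Real.log n) ≤ K := by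
  have hs : Summable fun n : ℕ => 4 * (n : ℝ) ^ (-(5 / 4) : ℝ) :=
    (Real.summable_nat_rpow.2 (by norm_num)).mul_left 4
  refine ⟨max 1 (∑' n : ℕ, 4 * (n : ℝ) ^ (-(5 / 4) : ℝ)), le_max_left _ _, fun S => ?_⟩
  refine le_trans ?_ (le_max_right _ _)
  refine le_trans (Finset.sum_le_sum fun n _ => ?_) (hs.sum_le_tsum S fun n _ => by positivity)
  rcases Nat.eq_zero_or_pos n with h | h
  · subst h
    simp
  · have h8 : (0 : ℝ) < n := Nat.cast_pos.2 h
    rw [Real.rpow_def_of_pos h8]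
    have h2 := Real.add_one_le_exp (Real.log n / 4)
    have h3 : Real.exp (Real.log n * -(5 / 4)) =
        Real.exp (Real.log n / 4) * Real.exp (-(3 / 2) * Real.log n) := by
      rw [← Real.exp_add]; congr 1; ring
    rw [h3, ← mul_assoc]
    exact mul_le_mul_of_nonneg_right (by linarith) (Real.exp_pos _).le

theorem norm_ds_le {c : ℕ → ℂ} {S : Finset ℕ} {y K : ℝ} (hy : 0 ≤ y)
    (hK : ∀ S : Finset ℕ, ∑ n ∈ S, Real.log n * Real.exp (-(3 / 2) * Real.log n) ≤ K)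
    (hc : ∀ n ∈ S, ‖c n‖ ≤ y * Real.log n) (t : ℝ) : ‖ds c S (t - I)‖ ≤ y * K := by
  refine le_trans ?_ (mul_le_mul_of_nonneg_left (hK S) hy)
  unfold ds
  rw [Finset.mul_sum]
  refine (norm_sum_le _ _).trans (Finset.sum_le_sum fun n hn => ?_)
  rw [norm_mul, norm_np, ← mul_assoc]
  have : (1 / 2 + I * ((t : ℂ) - I)).re = 3 / 2 := by
    simp
    norm_num
  rw [this]
  exact mul_le_mul_of_nonneg_right (hc n hn) (Real.exp_pos _).le

theorem start_R (h1 : Ar1Stmt) {y K : ℝ} (hy : 0 ≤ y)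
    (hK : ∀ S : Finset ℕ, ∑ n ∈ S, Real.log n * Real.exp (-(3 / 2) * Real.log n) ≤ K)
    {X : ℕ} (hX : 1 ≤ X) (t : ℝ) : ‖dp (rc y 0) X (t - I) - 1‖ ≤ y * K := by
  have h2 : dp (rc y 0) 1 (t - I) = 1 := by
    unfold dp ds
    simp [(h1.2.2.2.1 y 0).2.1, np]
  rw [dp_split _ hX, h2, add_sub_cancel_left]
  refine norm_ds_le hy hK (fun n hn => ?_) t
  exact (h1.2.2.2.2.1 y n hy).2.2.2.2 (by have := (Finset.mem_Ioc.1 hn).1; omega)

end Pool.Agent.MP_ca0a54_nt.H45
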