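import Pool.Agent.MP_ca0a54_nt.H45.OdeA
import Pool.Agent.MP_ca0a54_nt.H45.OdeB

/-!
Row ODE: the mollifier is close to the exponential of a sum over primes.
-/

open Complex MeasureTheory Filter Topology

namespace Pool.Agent.MP_ca0a54_nt.H45

open Pool.Agent.MP_ca0a54_nt.H24

/-- The mean value bound in the form used here. -/
def MV (T η : ℝ) (M : ℕ) : Prop := ∀ (c : ℕ → ℂ) (S : Finset ℕ) (z : ℂ) (m : ℝ),
  S ⊆ Finset.Icc 1 M → (∀ n ∈ S, ‖c n‖ ≤ Real.log T) → z.im ≤ 0 → 0 ≤ m → ms c S z.im ≤ m ^ 2 →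
  ∫⁻ t in Set.Icc T (2 * T), ‖ds c S (t + z)‖ₑ ≤ ENNReal.ofReal (2 * T * (m + η))

theorem mv_ev (hm : Mvt1Stmt) {e η : ℝ} (he : 0 < e) (hη : 0 < η) :
    ∀ᶠ T : ℝ in atTop, MV T η ⌊T ^ (1 - e)⌋₊ := by
  have h1 : ∀ᶠ T : ℝ in atTop, T ^ (-(e / 2)) ≤ η ^ 2 :=
    (tendsto_rpow_neg_atTop (by positivity)).eventually (ge_mem_nhds (by positivity))
  filter_upwards [hm e he, h1, Real.tendsto_log_atTop.eventually_ge_atTop 1,
    eventually_ge_atTop (1 : ℝ)] with T hT h1 hL hT1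
  intro c S z m hS hc hz hm0 hms
  have hL3 : Real.log T ≤ Real.log T ^ 3 := le_self_pow₀ hL (by norm_num)
  refine (hT _ c S z T (2 * T) (Nat.floor_le (by positivity)) hS
    (fun n hn => (hc n hn).trans hL3) (by linarith)).trans (ENNReal.ofReal_le_ofReal ?_)
  refine mul_le_mul_of_nonneg_left ?_ (by linarith)
  rw [max_eq_right hz, mul_zero, Real.exp_zero, mul_one]
  refine Real.sqrt_le_iff.2 ⟨by positivity, ?_⟩
  nlinarith [mul_nonneg hm0 hη.le]

theorem ev_vert {T η α lam e : ℝ} {M : ℕ} (hT : 0 ≤ T) (hη : 0 ≤ η) (hmv : MV T η M)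
    {c : ℕ → ℂ} {S : Finset ℕ} (hS : S ⊆ Finset.Icc 1 M) (hc : ∀ n ∈ S, ‖c n‖ ≤ Real.log T)
    (hα0 : 0 < α) (hα1 : α ≤ 1) (hlam : 0 < lam) {m G : ℝ → ℝ}
    (hm0 : ∀ s ∈ Set.Icc α 1, 0 ≤ m s) (hms : ∀ s ∈ Set.Icc α 1, ms c S (-s) ≤ m s ^ 2)
    (hd : ∀ s ∈ Set.Icc α 1, HasDerivAt G (m s) s) (hmc : ContinuousOn m (Set.Icc α 1))
    (he : 2 * T * (G 1 - G α + η) / lam ≤ e) :
    ∃ S' : Set ℝ, volume S' ≤ ENNReal.ofReal e ∧ ∀ t : ℝ, T ≤ t → t ≤ 2 * T → t ∉ S' →
      ∫⁻ s in Set.Icc α 1, ‖ds c S (t + 0 + -I * s)‖ₑ ≤ ENNReal.ofReal lam := by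
  refine markov (cont_ds c S) 0 (-I) hlam he (fun s => 2 * T * (m s + η)) (fun s hs => ?_) ?_
  · have him : (0 + -I * (s : ℂ)).im = -s := by simp
    exact hmv c S _ (m s) hS hc (by rw [him]; linarith [hs.1]) (hm0 s hs)
      (by rw [him]; exact hms s hs)
  · rw [lint_ftc (b := fun s => 2 * T * (m s + η)) (G := fun s => 2 * T * (G s + η * s)) hα1
      (fun s hs => (((hd s hs).fun_add ((hasDerivAt_id' s).const_mul η)).const_mul
        (2 * T)).congr_deriv (by ring))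
      ((hmc.add continuousOn_const).const_mul _)
      (fun s hs => mul_nonneg (by linarith) (add_nonneg (hm0 s hs) hη))]
    refine ENNReal.ofReal_le_ofReal ?_
    nlinarith [mul_nonneg hT (mul_nonneg hη hα0.le)]

theorem ev_hor {T η α a lam e m : ℝ} {M : ℕ} (hmv : MV T η M)
    {c : ℕ → ℂ} {S : Finset ℕ} (hS : S ⊆ Finset.Icc 1 M) (hc : ∀ n ∈ S, ‖c n‖ ≤ Real.log T)
    (hα0 : 0 < α) (hlam : 0 < lam) (hm0 : 0 ≤ m) (hms : ms c S (-α) ≤ m ^ 2)
    (he : 2 * T * (m + η) / lam ≤ e) :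
    ∃ S' : Set ℝ, volume S' ≤ ENNReal.ofReal e ∧ ∀ t : ℝ, T ≤ t → t ≤ 2 * T → t ∉ S' →
      ∫⁻ s in Set.Icc (0 : ℝ) 1, ‖ds c S (t + -(α * I) + (a : ℂ) * s)‖ₑ ≤ ENNReal.ofReal lam := by
  refine markov (cont_ds c S) (-(α * I)) a hlam he (fun _ => 2 * T * (m + η)) (fun s _ => ?_)
    (lint_const _).le
  have him : (-((α : ℂ) * I) + (a : ℂ) * (s : ℂ)).im = -α := by simp
  exact hmv c S _ m hS hc (by rw [him]; linarith) hm0 (by rw [him]; exact hms)

theorem small {ε C Y A : ℝ} (hε : 0 < ε) (hC : 1 ≤ C) (hY : 1 ≤ Y)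
    (hA : 6 * (1 + 168000 * C / ε + 190 / ε) * (1 + Real.log Y) ≤ A) :
    6 ≤ A ∧ 5000 / ε ≤ A ∧ 2 * (70 * √(12 * C * Y) * Real.exp (-A / 6) / ε) *
      Real.exp (190 * (1 + Real.log Y) / ε + 1) ≤ 1 / 100 := by
  have hl : 0 ≤ Real.log Y := Real.log_nonneg hY
  have hD : 0 ≤ 168000 * C / ε := by positivity
  have hD' : 0 ≤ 190 / ε := by positivity
  have h1 : 5000 / ε ≤ 168000 * C / ε := by gcongr; linarith
  have h2 : 6 * (1 + 168000 * C / ε + 190 / ε) ≤ A :=
    le_trans (le_mul_of_one_le_right (by positivity) (by linarith)) hA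
  refine ⟨by linarith, by linarith, ?_⟩
  have h3 : √(12 * C * Y) ≤ 12 * C * Y := by
    have : 1 ≤ 12 * C * Y := by nlinarith
    exact Real.sqrt_le_iff.2 ⟨by linarith, by nlinarith⟩
  have h4 : 168000 * C / ε ≤ Real.exp (168000 * C / ε) := by
    linarith [Real.add_one_le_exp (168000 * C / ε)]
  have h5 : Real.exp (168000 * C / ε) * Real.exp (Real.log Y) * Real.exp (-A / 6) *
      Real.exp (190 * (1 + Real.log Y) / ε + 1) ≤ 1 := by
    rw [← Real.exp_add, ← Real.exp_add, ← Real.exp_add]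
    refine Real.exp_le_one_iff.2 ?_
    have : 190 * (1 + Real.log Y) / ε = 190 / ε * (1 + Real.log Y) := by ring
    rw [this]
    nlinarith [mul_nonneg hD hl]
  rw [Real.exp_log (by linarith)] at h5
  calc _ ≤ 2 * (70 * (12 * C * Y) * Real.exp (-A / 6) / ε) *
        Real.exp (190 * (1 + Real.log Y) / ε + 1) := by gcongr
    _ = 1 / 100 * (168000 * C / ε * Y * Real.exp (-A / 6) *
        Real.exp (190 * (1 + Real.log Y) / ε + 1)) := by ring
    _ ≤ 1 / 100 * (Real.exp (168000 * C / ε) * Y * Real.exp (-A / 6) *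
        Real.exp (190 * (1 + Real.log Y) / ε + 1)) := by gcongr
    _ ≤ _ := by linarith

theorem floor_facts {T e : ℝ} (hT : 1 ≤ T) (he0 : 0 < e) (he1 : e ≤ 1 / 2) :
    1 ≤ ⌊T ^ (1 / 3 : ℝ)⌋₊ ∧ ⌊T ^ (1 / 3 : ℝ)⌋₊ ≤ ⌊T ^ (1 - e)⌋₊ ∧
    ⌊T ^ (1 - e)⌋₊ ≤ ⌊T ^ (1 - e / 2)⌋₊ ∧ ⌊T ^ (1 / 3 : ℝ)⌋₊ ^ 2 ≤ ⌊T ^ (1 - e / 2)⌋₊ ∧
    (∀ n : ℕ, ⌊T ^ (1 / 3 : ℝ)⌋₊ < n → Real.log T / 3 ≤ Real.log n) ∧
    ∀ n : ℕ, n ≤ ⌊T ^ (1 - e / 2)⌋₊ → Real.log n ≤ Real.log T := by
  have hT0 : 0 < T := by linarith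
  refine ⟨Nat.le_floor (by simpa using Real.one_le_rpow hT (by norm_num)),
    Nat.floor_mono (Real.rpow_le_rpow_of_exponent_le hT (by linarith)),
    Nat.floor_mono (Real.rpow_le_rpow_of_exponent_le hT (by linarith)), Nat.le_floor ?_,
    fun n hn => ?_, fun n hn => ?_⟩
  · have h1 : (⌊T ^ (1 / 3 : ℝ)⌋₊ : ℝ) ≤ T ^ (1 / 3 : ℝ) := Nat.floor_le (by positivity)
    push_cast
    calc _ ≤ (T ^ (1 / 3 : ℝ)) ^ 2 := by gcongr
      _ = T ^ (2 / 3 : ℝ) := by rw [← Real.rpow_natCast, ← Real.rpow_mul hT0.le]; norm_num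
      _ ≤ _ := Real.rpow_le_rpow_of_exponent_le hT (by linarith)
  · have h1 : T ^ (1 / 3 : ℝ) < n := Nat.lt_of_floor_lt hn
    have h2 := Real.log_le_log (by positivity) h1.le
    rw [Real.log_rpow hT0] at h2
    linarith
  · rcases Nat.eq_zero_or_pos n with h | h
    · subst h
      simpa using Real.log_nonneg hT
    · refine Real.log_le_log (Nat.cast_pos.2 h) ?_
      calc (n : ℝ) ≤ (⌊T ^ (1 - e / 2)⌋₊ : ℝ) := Nat.cast_le.2 hn
        _ ≤ T ^ (1 - e / 2) := Nat.floor_le (by positivity)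
        _ ≤ T ^ (1 : ℝ) := Real.rpow_le_rpow_of_exponent_le hT (by linarith)
        _ = T := Real.rpow_one T

theorem ode : Mvt1Stmt → Ar1Stmt → Ar2Stmt → OdeStmt := by
  intro hm h1 h2 ε hε
  obtain ⟨C, hC, hA2, -⟩ := h2
  obtain ⟨K, hK1, hK⟩ := exists_K
  refine ⟨6 * (1 + 168000 * C / ε + 190 / ε), ?_, fun Y A ε₁ ab hY hA he0 he1 hab1 hab4 => ?_⟩
  · have : 0 ≤ 168000 * C / ε + 190 / ε := by positivity
    linarith
  obtain ⟨hA6, hA5, hsm⟩ := small hε hC hY hA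
  have hl : 0 ≤ Real.log Y := Real.log_nonneg hY
  set η := Real.exp (-A / 6) with hη
  have hη0 : 0 < η := Real.exp_pos _
  have hη1 : η ≤ 1 := Real.exp_le_one_iff.2 (by linarith)
  have hηA : A * η ≤ 6 := by
    have h3 := Real.add_one_le_exp (A / 6)
    have h4 : Real.exp (A / 6) * η = 1 := by
      rw [hη, ← Real.exp_add]
      simp [neg_div]
    nlinarith
  set Q := √(12 * C * Y) with hQ
  have hQ2 : Q ^ 2 = 12 * C * Y := Real.sq_sqrt (by positivity)
  have hQ1 : 1 ≤ Q := Real.one_le_sqrt.2 (by nlinarith)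
  set Λ := 190 * (1 + Real.log Y) / ε with hΛ
  have hΛ0 : 0 < Λ := by positivity
  set E := 70 * Q * η / ε with hE
  have hE0 : 0 < E := by positivity
  have hE1 : E ≤ 1 / 200 := by
    have : 1 ≤ Real.exp (Λ + 1) := Real.one_le_exp (by linarith)
    nlinarith
  filter_upwards [mv_ev hm (half_pos he0) hη0, eventually_ge_atTop (1 : ℝ),
    Real.tendsto_log_atTop.eventually_ge_atTop (4 * A),
    Real.tendsto_log_atTop.eventually_ge_atTop (400 * K * Y)] with T hmv hT hLA hLK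
  obtain ⟨x1, x2, x3, x4, xlo, xhi⟩ := floor_facts hT he0 he1
  set L := Real.log T with hL
  set X := ⌊T ^ (1 / 3 : ℝ)⌋₊ with hX
  set N := ⌊T ^ (1 - ε₁)⌋₊ with hN
  set M := ⌊T ^ (1 - ε₁ / 2)⌋₊ with hM
  have hT0 : 0 ≤ T := by linarith
  have hL0 : 0 < L := by linarith
  have hL1 : 1 ≤ L := by linarith
  set a := ab / L with ha
  set y := Y / L with hy
  set α := A * a with hα
  have ha0 : 0 < a := by positivity
  have hy0 : 0 < y := by positivity
  have hα0 : 0 < α := by positivity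
  have haL : a * L = ab := by rw [ha]; field_simp
  have hyL : y * L = Y := by rw [hy]; field_simp
  have hαL : A ≤ α * L := by rw [hα, mul_assoc, haL]; nlinarith
  have hα1 : α ≤ 1 := by
    refine le_of_mul_le_mul_right ?_ hL0
    rw [hα, mul_assoc, haL]
    nlinarith
  have ha1 : a ≤ 1 := by nlinarith
  have hyK : y * K ≤ 1 / 400 := by
    refine le_of_mul_le_mul_right ?_ hL0
    rw [mul_right_comm, hyL]
    linarith
  have sX : Finset.Icc 1 X ⊆ Finset.Icc 1 M := Finset.Icc_subset_Icc_right (x2.trans x3)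
  have sE : Finset.Ioc X (X ^ 2) ⊆ Finset.Icc 1 M := fun n hn => by
    simp only [Finset.mem_Ioc, Finset.mem_Icc] at hn ⊢
    omega
  have sN : Finset.Ioc X N ⊆ Finset.Icc 1 M := fun n hn => by
    simp only [Finset.mem_Ioc, Finset.mem_Icc] at hn ⊢
    omega
  have cG : ∀ n ∈ Finset.Icc 1 X, ‖gc y n‖ ≤ L := fun n hn =>
    (norm_gc hy0.le n).1.trans (ArithmeticFunction.vonMangoldt_le_log.trans
      (xhi n (Finset.mem_Icc.1 (sX hn)).2))
  have cE : ∀ n ∈ Finset.Ioc X (X ^ 2), ‖ec y X n‖ ≤ L := fun n hn =>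
    (norm_ec h1 hy0.le X n).1.trans (xhi n (Finset.mem_Icc.1 (sE hn)).2)
  have cR : ∀ n ∈ Finset.Ioc X N, ‖rc y 0 n‖ ≤ L := fun n _ =>
    ((h1.2.2.2.2.1 y n hy0.le).1.trans (h1.2.2.2.2.1 y n hy0.le).2.1).trans hL1
  have mE : ∀ s ∈ Set.Icc α 1, ms (ec y X) (Finset.Ioc X (X ^ 2)) (-s) ≤
      (Q * L * Real.exp (-s * L / 6)) ^ 2 := by
    intro s hs
    have hs0 : 0 < s := hα0.trans_le hs.1
    refine (ms_ec h1 hy0.le hs0 hs.2 hL0.le X xlo (fun n hn => xhi n (hn.trans x4))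
      (hA2 L Y X hL1 hY (xhi X (x2.trans x3)))).trans ?_
    have h3 : Real.exp (-s * L / 6) ^ 2 = Real.exp (-s * (L / 3)) := by
      rw [← Real.exp_nat_mul]; congr 1; push_cast; ring
    have h4 : 12 / s ≤ 12 * L := by
      rw [div_le_iff₀ hs0]
      nlinarith [mul_le_mul_of_nonneg_right hs.1 hL0.le]
    rw [mul_pow, mul_pow, h3, hQ2]
    calc _ ≤ L * Real.exp (-s * (L / 3)) * (12 * L * (C * Y)) := by gcongr
      _ = _ := by ring
  have hexp : Real.exp (-α * L / 6) ≤ η := Real.exp_le_exp.2 (by linarith)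
  -- the five events
  obtain ⟨S1, v1, p1⟩ := ev_vert (lam := Λ) (e := ε * T / 5) hT0 hη0.le hmv sX cG hα0 hα1 hΛ0
    (m := fun s => 18 * y / (s * (s + y))) (G := fun s => 18 * (Real.log s - Real.log (s + y)))
    (fun s hs => by have := hα0.trans_le hs.1; positivity)
    (fun s hs => (ms_gc h1 hy0 (hα0.trans_le hs.1) hs.2 X).2)
    (fun s hs => by
      have hs0 : 0 < s := hα0.trans_le hs.1
      refine (((Real.hasDerivAt_log hs0.ne').fun_sub
        (((hasDerivAt_id' s).add_const y).log (by positivity))).const_mul 18).congr_deriv ?_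
      field_simp
      ring)
    (by
      refine continuousOn_const.div (by fun_prop) fun s hs => ?_
      have := hα0.trans_le hs.1
      positivity)
    (by
      have h3 : Real.log (α + y) ≤ Real.log α + (1 + Real.log Y) := by
        have h4 : α + y ≤ α * (2 * Y) := by
          have h5 : y ≤ α * Y := by
            refine le_of_mul_le_mul_right ?_ hL0
            rw [hyL, mul_right_comm]
            nlinarith
          nlinarith
        have h6 := Real.log_le_log (by positivity) h4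
        rw [Real.log_mul hα0.ne' (by positivity), Real.log_mul two_ne_zero (by positivity)] at h6
        have h7 := Real.log_le_sub_one_of_pos (show (0 : ℝ) < 2 by norm_num)
        linarith
      have h4 : 0 ≤ Real.log (1 + y) := Real.log_nonneg (by linarith)
      rw [div_le_iff₀ hΛ0, Real.log_one]
      have h5 : ε * T / 5 * Λ = 2 * T * (19 * (1 + Real.log Y)) := by rw [hΛ]; field_simp; norm_num
      rw [h5]
      exact mul_le_mul_of_nonneg_left (by linarith) (by linarith))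
  obtain ⟨S2, v2, p2⟩ := ev_hor (a := a) (lam := 1 / (50 * a)) (e := ε * T / 5) hmv sX cG hα0
    (by positivity) (m := 4 / α) (by positivity) (ms_gc h1 hy0 hα0 hα1 X).1
    (by
      have hA0 : 0 < A := by linarith
      have h3 : 2 * T * (4 / α + η) / (1 / (50 * a)) = T * (100 * (4 + a * (A * η)) / A) := by
        rw [hα]; field_simp; norm_num
      have h4 : 100 * (4 + a * (A * η)) / A ≤ ε / 5 := by
        rw [div_le_iff₀ hA0]
        rw [div_le_iff₀ hε] at hA5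
        nlinarith [mul_nonneg hA0.le hη0.le]
      rw [h3]
      nlinarith [mul_le_mul_of_nonneg_left h4 hT0])
  obtain ⟨S3, v3, p3⟩ := ev_vert (lam := E) (e := ε * T / 5) hT0 hη0.le hmv sE cE hα0 hα1 hE0
    (m := fun s => Q * L * Real.exp (-s * L / 6)) (G := fun s => -6 * Q * Real.exp (-s * L / 6))
    (fun s _ => by positivity) mE
    (fun s _ => by
      refine ((((hasDerivAt_id' s).fun_neg.mul_const L).div_const 6).exp.const_mul
        (-6 * Q)).congr_deriv ?_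
      ring)
    (by fun_prop)
    (by
      rw [div_le_iff₀ hE0]
      have h5 : ε * T / 5 * E = 2 * T * (7 * Q * η) := by rw [hE]; field_simp; norm_num
      rw [h5]
      refine mul_le_mul_of_nonneg_left ?_ (by linarith)
      have h6 := Real.exp_pos (-1 * L / 6)
      nlinarith [mul_le_mul_of_nonneg_left hexp (show 0 ≤ Q by linarith)])
  obtain ⟨S4, v4, p4⟩ := ev_hor (a := a) (lam := E / a) (e := ε * T / 5) hmv sE cE hα0
    (by positivity) (m := Q * L * Real.exp (-α * L / 6)) (by positivity) (mE α ⟨le_rfl, hα1⟩)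
    (by
      rw [div_le_iff₀ (by positivity)]
      have h5 : ε * T / 5 * (E / a) = 2 * T * (7 * Q * η / a) := by
        rw [hE]; field_simp; norm_num
      rw [h5]
      refine mul_le_mul_of_nonneg_left ?_ (by linarith)
      rw [le_div_iff₀ ha0]
      have h6 : Q * L * Real.exp (-α * L / 6) * a ≤ Q * η * 4 := by
        calc _ = Q * Real.exp (-α * L / 6) * (a * L) := by ring
          _ ≤ _ := by rw [haL]; gcongr
      nlinarith [mul_le_mul_of_nonneg_left ha1 hη0.le, mul_le_mul_of_nonneg_right hQ1 hη0.le])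
  obtain ⟨S5, v5, p5⟩ := ev_hor (a := a) (lam := 1 / 20) (e := ε * T / 5) hmv sN cR hα0
    (by norm_num) (m := Q * η) (by positivity)
    (by
      refine (ms_tail h1 hy0.le hα0.le hL0.le X N xlo (hA2 L Y N hL1 hY (xhi N x3))).trans ?_
      have h3 : Real.exp (-α * (L / 3)) ≤ η ^ 2 := by
        rw [hη, ← Real.exp_nat_mul]
        exact Real.exp_le_exp.2 (by push_cast; linarith)
      rw [mul_pow, hQ2]
      have h4 : 0 ≤ C * Y := by positivity
      nlinarith [mul_le_mul_of_nonneg_right h3 h4, mul_nonneg h4 (sq_nonneg η)])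
    (by
      have h3 : 70 * Q * η ≤ 1 / 200 * ε := by rwa [hE, div_le_iff₀ hε] at hE1
      have h4 : 40 * (Q * η + η) ≤ ε / 5 := by
        nlinarith [mul_le_mul_of_nonneg_right hQ1 hη0.le]
      have h5 : 2 * T * (Q * η + η) / (1 / 20) = T * (40 * (Q * η + η)) := by ring
      rw [h5]
      nlinarith [mul_le_mul_of_nonneg_left h4 hT0])
  refine ⟨S1 ∪ S2 ∪ S3 ∪ S4 ∪ S5, ?_, fun t t1 t2 ht => ?_⟩
  · have h0 : 0 ≤ ε * T / 5 := by positivity
    calc volume (S1 ∪ S2 ∪ S3 ∪ S4 ∪ S5)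
        ≤ volume S1 + volume S2 + volume S3 + volume S4 + volume S5 := by
          refine (measure_union_le _ _).trans ?_
          gcongr
          refine (measure_union_le _ _).trans ?_
          gcongr
          refine (measure_union_le _ _).trans ?_
          gcongr
          exact measure_union_le _ _
      _ ≤ ENNReal.ofReal (ε * T / 5) + ENNReal.ofReal (ε * T / 5) + ENNReal.ofReal (ε * T / 5) +
          ENNReal.ofReal (ε * T / 5) + ENNReal.ofReal (ε * T / 5) := by gcongr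
      _ = ENNReal.ofReal (ε * T) := by
          rw [← ENNReal.ofReal_add h0 h0, ← ENNReal.ofReal_add (by linarith) h0,
            ← ENNReal.ofReal_add (by linarith) h0, ← ENNReal.ofReal_add (by linarith) h0]
          congr 1
          ring
  simp only [Set.mem_union, not_or] at ht
  obtain ⟨⟨⟨⟨n1, n2⟩, n3⟩, n4⟩, n5⟩ := ht
  have det := detStep (hasDerivAt_R h1 y X) (hasDerivAt_P y X) (cont_ds _ _) (cont_ds _ _) hα1 ha0
    hΛ0.le hE0.le ((start_R h1 hy0.le hK x1 t).trans hyK)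
    ((norm_ds_le hy0.le hK (fun n _ => norm_pc hy0.le n) t).trans hyK)
    (p1 t t1 t2 n1) (p2 t t1 t2 n2) (p3 t t1 t2 n3) (p4 t t1 t2 n4) hsm
  rw [dp_pc]
  set ρ := exp (-dp (pc y 0) X (t + -(α * I))) with hρ
  calc _ ≤ ∫⁻ x in Set.Icc (0 : ℝ) 1, (‖ds (rc y 0) (Finset.Ioc X N)
        (t + -(α * I) + (a : ℂ) * x)‖ₑ + ENNReal.ofReal (‖ρ‖ / 20)) := by
        refine setLIntegral_mono' measurableSet_Icc fun x hx => ?_
        have h3 : (t : ℂ) + (a : ℂ) * x - α * I = t + -(α * I) + (a : ℂ) * x := by ring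
        rw [h3, ← ofReal_norm, ← ofReal_norm, ← ENNReal.ofReal_add (norm_nonneg _) (by positivity)]
        refine ENNReal.ofReal_le_ofReal ?_
        have h4 : RR T Y ε₁ (t + -(α * I) + (a : ℂ) * x) - ρ =
            ds (rc y 0) (Finset.Ioc X N) (t + -(α * I) + (a : ℂ) * x) +
              (dp (rc y 0) X (t + -(α * I) + (a : ℂ) * x) - ρ) := by
          have h5 : RR T Y ε₁ (t + -(α * I) + (a : ℂ) * x) =
              dp (rc y 0) N (t + -(α * I) + (a : ℂ) * x) := rfl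
          rw [h5, dp_split _ x2]
          ring
        rw [h4]
        exact (norm_add_le _ _).trans (by linarith [det x hx])
    _ = (∫⁻ x in Set.Icc (0 : ℝ) 1, ‖ds (rc y 0) (Finset.Ioc X N)
        (t + -(α * I) + (a : ℂ) * x)‖ₑ) + ENNReal.ofReal (‖ρ‖ / 20) := by
        rw [lintegral_add_right _ measurable_const, lint_const]
    _ ≤ ENNReal.ofReal (1 / 20) + ENNReal.ofReal (‖ρ‖ / 20) := by
        gcongr
        exact p5 t t1 t2 n5
    _ = ENNReal.ofReal ((‖ρ‖ + 1) / 20) := by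
        rw [← ENNReal.ofReal_add (by norm_num) (by positivity)]
        congr 1
        ring

end Pool.Agent.MP_ca0a54_nt.H45
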