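import Pool.Agent.MP_ca0a54_nt.H24.Spec

/-!
Row ODE, part A: segments, Markov's inequality and the deterministic step.
-/

open Complex MeasureTheory Filter Topology

namespace Pool.Agent.MP_ca0a54_nt.H45

/-- The variation of an entire function along a segment. -/
theorem seg {F F' K : ℂ → ℂ} (hF : ∀ w, HasDerivAt F (F' w) w) (hc : Continuous F') (z v : ℂ)
    {s0 s1 M B : ℝ} (hM : 0 ≤ M) (hB : 0 ≤ B)
    (h : ∀ s ∈ Set.Icc s0 s1, ‖F' (z + v * s)‖ ≤ M * ‖K (z + v * s)‖)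
    (hK : ∫⁻ s in Set.Icc s0 s1, ‖K (z + v * s)‖ₑ ≤ ENNReal.ofReal B) :
    ∀ p ∈ Set.Icc s0 s1, ∀ q ∈ Set.Icc s0 s1,
      ‖F (z + v * p) - F (z + v * q)‖ ≤ ‖v‖ * M * B := by
  have key : ∀ p ∈ Set.Icc s0 s1, ∀ q ∈ Set.Icc s0 s1, q ≤ p →
      ‖F (z + v * p) - F (z + v * q)‖ ≤ ‖v‖ * M * B := by
    intro p hp q hq hqp
    have hd : ∀ s : ℝ, HasDerivAt (fun s : ℝ => F (z + v * s)) (F' (z + v * s) * v) s := by
      intro s
      have h1 : HasDerivAt (fun w : ℂ => z + v * w) v (s : ℂ) := by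
        simpa using ((hasDerivAt_id (s : ℂ)).const_mul v).const_add z
      exact ((hF (z + v * s)).comp (s : ℂ) h1).comp_ofReal
    have hcont : Continuous fun s : ℝ => F' (z + v * s) * v := by fun_prop
    have hint := intervalIntegral.integral_eq_sub_of_hasDerivAt (a := q) (b := p)
      (fun s _ => hd s) (hcont.intervalIntegrable q p)
    rw [← hint, intervalIntegral.integral_of_le hqp]
    have hvM : 0 ≤ ‖v‖ * M := mul_nonneg (norm_nonneg v) hM
    have h1 : ‖∫ s in Set.Ioc q p, F' (z + v * s) * v‖ₑ ≤ ENNReal.ofReal (‖v‖ * M * B) := by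
      calc ‖∫ s in Set.Ioc q p, F' (z + v * s) * v‖ₑ
          ≤ ∫⁻ s in Set.Ioc q p, ‖F' (z + v * s) * v‖ₑ := enorm_integral_le_lintegral_enorm _
        _ ≤ ∫⁻ s in Set.Icc s0 s1, ‖F' (z + v * s) * v‖ₑ :=
            lintegral_mono_set fun s hs => ⟨hq.1.trans hs.1.le, hs.2.trans hp.2⟩
        _ ≤ ∫⁻ s in Set.Icc s0 s1, ENNReal.ofReal (‖v‖ * M) * ‖K (z + v * s)‖ₑ := by
            refine setLIntegral_mono' measurableSet_Icc fun s hs => ?_
            rw [← ofReal_norm, ← ofReal_norm, ← ENNReal.ofReal_mul hvM]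
            refine ENNReal.ofReal_le_ofReal ?_
            rw [norm_mul]
            have := mul_le_mul_of_nonneg_right (h s hs) (norm_nonneg v)
            linarith
        _ = ENNReal.ofReal (‖v‖ * M) * ∫⁻ s in Set.Icc s0 s1, ‖K (z + v * s)‖ₑ :=
            lintegral_const_mul' _ _ ENNReal.ofReal_ne_top
        _ ≤ ENNReal.ofReal (‖v‖ * M) * ENNReal.ofReal B := by gcongr
        _ = ENNReal.ofReal (‖v‖ * M * B) := (ENNReal.ofReal_mul hvM).symm
    rw [← ofReal_norm] at h1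
    exact (ENNReal.ofReal_le_ofReal_iff (mul_nonneg hvM hB)).1 h1
  intro p hp q hq
  rcases le_total q p with hqp | hqp
  · exact key p hp q hq hqp
  · rw [norm_sub_rev]
    exact key q hq p hp hqp

/-- Tonelli and Markov. -/
theorem markov {K : ℂ → ℂ} (hK : Continuous K) (z v : ℂ) {s0 s1 T lam B e : ℝ} (hlam : 0 < lam)
    (hB0 : B / lam ≤ e) (b : ℝ → ℝ)
    (hb : ∀ s ∈ Set.Icc s0 s1,
      ∫⁻ t in Set.Icc T (2 * T), ‖K (t + (z + v * s))‖ₑ ≤ ENNReal.ofReal (b s))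
    (hB : ∫⁻ s in Set.Icc s0 s1, ENNReal.ofReal (b s) ≤ ENNReal.ofReal B) :
    ∃ S : Set ℝ, volume S ≤ ENNReal.ofReal e ∧ ∀ t : ℝ, T ≤ t → t ≤ 2 * T → t ∉ S →
      ∫⁻ s in Set.Icc s0 s1, ‖K (t + z + v * s)‖ₑ ≤ ENNReal.ofReal lam := by
  have hm : Measurable (Function.uncurry fun t s : ℝ => ‖K (t + (z + v * s))‖ₑ) := by
    have : Continuous fun p : ℝ × ℝ => K (p.1 + (z + v * p.2)) := by fun_prop
    exact this.enorm.measurable
  have hΦ : Measurable fun t : ℝ => ∫⁻ s in Set.Icc s0 s1, ‖K (t + (z + v * s))‖ₑ :=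
    hm.lintegral_prod_right
  refine ⟨{t : ℝ | ENNReal.ofReal lam ≤ ∫⁻ s in Set.Icc s0 s1, ‖K (t + (z + v * s))‖ₑ} ∩
    Set.Icc T (2 * T), ?_, ?_⟩
  · rw [← Measure.restrict_apply (measurableSet_le measurable_const hΦ)]
    refine (meas_ge_le_lintegral_div hΦ.aemeasurable (by simpa using hlam)
      ENNReal.ofReal_ne_top).trans ?_
    rw [lintegral_lintegral_swap hm.aemeasurable]
    have h1 : ∫⁻ s in Set.Icc s0 s1, ∫⁻ t in Set.Icc T (2 * T), ‖K (t + (z + v * s))‖ₑ ≤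
        ENNReal.ofReal B := (setLIntegral_mono' measurableSet_Icc hb).trans hB
    calc _ ≤ ENNReal.ofReal B / ENNReal.ofReal lam := by gcongr
      _ = ENNReal.ofReal (B / lam) := (ENNReal.ofReal_div_of_pos hlam).symm
      _ ≤ ENNReal.ofReal e := ENNReal.ofReal_le_ofReal hB0
  · intro t h1 h2 ht
    by_contra hcon
    refine ht ⟨?_, h1, h2⟩
    simp only [add_assoc] at hcon
    exact (not_le.1 hcon).le

theorem lint_ftc {b G : ℝ → ℝ} {s0 s1 : ℝ} (h01 : s0 ≤ s1)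
    (hd : ∀ s ∈ Set.Icc s0 s1, HasDerivAt G (b s) s) (hc : ContinuousOn b (Set.Icc s0 s1))
    (h0 : ∀ s ∈ Set.Icc s0 s1, 0 ≤ b s) :
    ∫⁻ s in Set.Icc s0 s1, ENNReal.ofReal (b s) = ENNReal.ofReal (G s1 - G s0) := by
  have hi : IntegrableOn b (Set.Icc s0 s1) := hc.integrableOn_Icc
  rw [← ofReal_integral_eq_lintegral_ofReal hi
    ((ae_restrict_mem measurableSet_Icc).mono h0), integral_Icc_eq_integral_Ioc,
    ← intervalIntegral.integral_of_le h01,
    intervalIntegral.integral_eq_sub_of_hasDerivAt (by rwa [Set.uIcc_of_le h01])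
      (hc.intervalIntegrable_of_Icc h01)]

theorem lint_const (c : ℝ) : ∫⁻ _s in Set.Icc (0 : ℝ) 1, ENNReal.ofReal c = ENNReal.ofReal c := by
  simp

/-- The deterministic step. -/
theorem detStep {R P G E : ℂ → ℂ} (hR : ∀ w, HasDerivAt R (I * (G w * R w - E w)) w)
    (hP : ∀ w, HasDerivAt P (-I * G w) w) (hG : Continuous G) (hE : Continuous E)
    {t α a Λ e : ℝ} (hα1 : α ≤ 1) (ha : 0 < a) (hΛ : 0 ≤ Λ) (he : 0 ≤ e)
    (r0 : ‖R (t - I) - 1‖ ≤ 1 / 400) (p0 : ‖P (t - I)‖ ≤ 1 / 400)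
    (g1 : ∫⁻ s in Set.Icc α 1, ‖G (t + 0 + -I * s)‖ₑ ≤ ENNReal.ofReal Λ)
    (g2 : ∫⁻ s in Set.Icc (0 : ℝ) 1, ‖G (t + -(α * I) + (a : ℂ) * s)‖ₑ ≤
      ENNReal.ofReal (1 / (50 * a)))
    (e1 : ∫⁻ s in Set.Icc α 1, ‖E (t + 0 + -I * s)‖ₑ ≤ ENNReal.ofReal e)
    (e2 : ∫⁻ s in Set.Icc (0 : ℝ) 1, ‖E (t + -(α * I) + (a : ℂ) * s)‖ₑ ≤ ENNReal.ofReal (e / a))
    (hsm : 2 * e * Real.exp (Λ + 1) ≤ 1 / 100) :
    ∀ x ∈ Set.Icc (0 : ℝ) 1, ‖R (t + -(α * I) + (a : ℂ) * x) - exp (-P (t + -(α * I)))‖ ≤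
      ‖exp (-P (t + -(α * I)))‖ / 20 := by
  have hPc : Continuous P := continuous_iff_continuousAt.2 fun w => (hP w).continuousAt
  have hna : ‖(a : ℂ)‖ = a := by simp [abs_of_pos ha]
  have hα : α ∈ Set.Icc α 1 := ⟨le_rfl, hα1⟩
  have h1 : (1 : ℝ) ∈ Set.Icc α 1 := ⟨hα1, le_rfl⟩
  have h0 : (0 : ℝ) ∈ Set.Icc (0 : ℝ) 1 := ⟨le_rfl, zero_le_one⟩
  have c1 : (t : ℂ) + 0 + -I * ((1 : ℝ) : ℂ) = t - I := by push_cast; ring
  have c2 : (t : ℂ) + 0 + -I * (α : ℂ) = t + -(α * I) := by ring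
  have c3 : (t : ℂ) + -(α * I) + (a : ℂ) * ((0 : ℝ) : ℂ) = t + -(α * I) := by push_cast; ring
  -- variation of `P`
  have pv := seg (K := G) hP (by fun_prop) ((t : ℂ) + 0) (-I) zero_le_one hΛ
    (fun s _ => by simp) g1
  have ph := seg (K := G) hP (by fun_prop) ((t : ℂ) + -(α * I)) (a : ℂ) zero_le_one
    (by positivity) (fun s _ => by simp) g2
  have pv' : ∀ s ∈ Set.Icc α 1, ‖P (t + 0 + -I * s)‖ ≤ Λ + 1 / 400 := by
    intro s hs
    have := pv s hs 1 h1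
    rw [c1] at this
    have h2 := norm_add_le (P (t + 0 + -I * s) - P (t - I)) (P (t - I))
    simp only [norm_neg, norm_I, one_mul, sub_add_cancel] at this h2
    linarith
  have ph' : ∀ x ∈ Set.Icc (0 : ℝ) 1,
      ‖P (t + -(α * I) + (a : ℂ) * x) - P (t + -(α * I))‖ ≤ 1 / 50 := by
    intro x hx
    have := ph x hx 0 h0
    rw [c3, hna] at this
    have h2 : a * 1 * (1 / (50 * a)) = 1 / 50 := by field_simp
    linarith
  have ph'' : ∀ x ∈ Set.Icc (0 : ℝ) 1, ‖P (t + -(α * I) + (a : ℂ) * x)‖ ≤ Λ + 1 := by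
    intro x hx
    have h2 := pv' α hα
    rw [c2] at h2
    have h3 := norm_add_le (P (t + -(α * I) + (a : ℂ) * x) - P (t + -(α * I))) (P (t + -(α * I)))
    simp only [sub_add_cancel] at h3
    linarith [ph' x hx]
  -- the almost constant function
  have hF : ∀ w, HasDerivAt (fun w => R w * exp (P w)) (-I * E w * exp (P w)) w := by
    intro w
    have := (hR w).fun_mul (hP w).cexp
    refine this.congr_deriv ?_
    ring
  have hb : ∀ w, ‖P w‖ ≤ Λ + 1 → ‖-I * E w * exp (P w)‖ ≤ Real.exp (Λ + 1) * ‖E w‖ := by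
    intro w hw
    have h2 : ‖exp (P w)‖ ≤ Real.exp (Λ + 1) :=
      (Complex.norm_exp_le_exp_norm _).trans (Real.exp_le_exp.2 hw)
    simp only [norm_mul, norm_neg, norm_I, one_mul]
    rw [mul_comm]
    exact mul_le_mul_of_nonneg_right h2 (norm_nonneg _)
  have fv := seg (K := E) hF (by fun_prop) ((t : ℂ) + 0) (-I) (Real.exp_pos (Λ + 1)).le he
    (fun s hs => hb _ (by linarith [pv' s hs])) e1 α hα 1 h1
  have fh := seg (K := E) hF (by fun_prop) ((t : ℂ) + -(α * I)) (a : ℂ)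
    (Real.exp_pos (Λ + 1)).le (by positivity) (fun s hs => hb _ (ph'' s hs)) e2
  rw [c1, c2] at fv
  simp only [norm_neg, norm_I, one_mul] at fv
  have f0 : ‖R (t - I) * exp (P (t - I)) - 1‖ ≤ 1 / 100 := by
    have h2 : ‖exp (P (t - I)) - 1‖ ≤ 2 / 400 := by
      have := Complex.norm_exp_sub_one_le (x := P (t - I)) (by linarith)
      linarith
    have h3 : R (t - I) * exp (P (t - I)) - 1 =
        (R (t - I) - 1) * (exp (P (t - I)) - 1) + (R (t - I) - 1) + (exp (P (t - I)) - 1) := by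
      ring
    rw [h3]
    have h4 := norm_add₃_le (a := (R (t - I) - 1) * (exp (P (t - I)) - 1)) (b := R (t - I) - 1)
      (c := exp (P (t - I)) - 1)
    rw [norm_mul] at h4
    have h5 : ‖R (t - I) - 1‖ * ‖exp (P (t - I)) - 1‖ ≤ 1 / 400 * (2 / 400) :=
      mul_le_mul r0 h2 (norm_nonneg _) (by norm_num)
    linarith
  intro x hx
  have fx := fh x hx 0 h0
  rw [c3, hna] at fx
  have h6 : a * Real.exp (Λ + 1) * (e / a) = Real.exp (Λ + 1) * e := by field_simp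
  set w := (t : ℂ) + -(α * I) + (a : ℂ) * x with hw
  set w0 := (t : ℂ) + -(α * I) with hw0
  have f1 : ‖R w * exp (P w) - 1‖ ≤ 1 / 50 := by
    have h7 := norm_add₃_le (a := R w * exp (P w) - R w0 * exp (P w0))
      (b := R w0 * exp (P w0) - R (t - I) * exp (P (t - I))) (c := R (t - I) * exp (P (t - I)) - 1)
    have h8 : R w * exp (P w) - R w0 * exp (P w0) +
        (R w0 * exp (P w0) - R (t - I) * exp (P (t - I))) + (R (t - I) * exp (P (t - I)) - 1) =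
        R w * exp (P w) - 1 := by ring
    rw [h8] at h7
    linarith
  have f2 : ‖exp (-(P w - P w0)) - 1‖ ≤ 1 / 49 := by
    have h7 : ‖-(P w - P w0)‖ ≤ 1 / 50 := by rw [norm_neg]; exact ph' x hx
    have h8 := Complex.norm_exp_sub_one_sub_id_le (x := -(P w - P w0)) (by linarith)
    have h9 := norm_add_le (exp (-(P w - P w0)) - 1 - -(P w - P w0)) (-(P w - P w0))
    simp only [sub_add_cancel] at h9
    have h10 : ‖-(P w - P w0)‖ ^ 2 ≤ (1 / 50) ^ 2 := by gcongr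
    linarith
  have h11 : R w - exp (-P w0) = exp (-P w0) * ((R w * exp (P w) - 1) *
      (exp (-(P w - P w0)) - 1) + (R w * exp (P w) - 1) + (exp (-(P w - P w0)) - 1)) := by
    have h12 : exp (-P w0) * exp (P w) * exp (-(P w - P w0)) = 1 := by
      rw [← Complex.exp_add, ← Complex.exp_add]
      simp
    linear_combination (-R w) * h12
  rw [h11, norm_mul]
  have h13 := norm_add₃_le (a := (R w * exp (P w) - 1) * (exp (-(P w - P w0)) - 1))
    (b := R w * exp (P w) - 1) (c := exp (-(P w - P w0)) - 1)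
  rw [norm_mul] at h13
  have h14 : ‖R w * exp (P w) - 1‖ * ‖exp (-(P w - P w0)) - 1‖ ≤ 1 / 50 * (1 / 49) :=
    mul_le_mul f1 f2 (norm_nonneg _) (by norm_num)
  have h15 : ‖(R w * exp (P w) - 1) * (exp (-(P w - P w0)) - 1) + (R w * exp (P w) - 1) +
      (exp (-(P w - P w0)) - 1)‖ ≤ 1 / 20 := by linarith
  have := mul_le_mul_of_nonneg_left h15 (norm_nonneg (exp (-P w0)))
  linarith

end Pool.Agent.MP_ca0a54_nt.H45
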